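import Pool.Agent.helper13.UN.SpecG

/-!
# unh:SAP: weak approximation at the real places
-/

set_option autoImplicit false

open NumberField Complex

namespace Pool.Agent.UN

theorem SAP_inj (K : Type) [Field K] [NumberField K] :
    ∃ θ : K, ∀ φ ψ : K →+* ℝ, φ θ = ψ θ → φ = ψ := by
  obtain ⟨θ, hθ⟩ := Field.exists_primitive_element ℚ K
  have h1 : Algebra.adjoin ℚ {θ} = (⊤ : Subalgebra ℚ K) := by
    rw [← IntermediateField.adjoin_simple_toSubalgebra_of_isAlgebraic (Algebra.IsAlgebraic.isAlgebraic θ), hθ]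
    rfl
  refine ⟨θ, fun φ ψ h => ?_⟩
  have h2 : φ.toRatAlgHom = ψ.toRatAlgHom := AlgHom.ext_of_adjoin_eq_top h1 (by
    intro x hx
    rw [Set.mem_singleton_iff] at hx
    subst hx
    exact h)
  ext x
  exact DFunLike.congr_fun h2 x

theorem SAP_fin (K : Type) [Field K] [NumberField K] : Finite (K →+* ℝ) := by
  refine Finite.of_injective (fun φ : K →+* ℝ => (Complex.ofRealHom.comp φ : K →+* ℂ)) ?_
  intro φ ψ h
  ext x
  have h1 := DFunLike.congr_fun h x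
  exact Complex.ofReal_injective h1

theorem SAP_rat (T : Set ℝ) (hT : T.Finite) (t : ℝ) :
    ∃ a b : ℚ, (a : ℝ) < t ∧ t < (b : ℝ) ∧ ∀ s ∈ T, s ≠ t → 0 < (s - a) * (s - b) := by
  have h1 : IsOpen (T \ {t})ᶜ := (hT.subset Set.sdiff_subset).isClosed.isOpen_compl
  have h2 : t ∈ (T \ {t})ᶜ := fun h => h.2 rfl
  obtain ⟨ε, hε, h3⟩ := Metric.isOpen_iff.1 h1 t h2
  obtain ⟨a, ha1, ha2⟩ := exists_rat_btwn (show t - ε < t by linarith)
  obtain ⟨b, hb1, hb2⟩ := exists_rat_btwn (show t < t + ε by linarith)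
  refine ⟨a, b, ha2, hb1, fun s hs hst => ?_⟩
  have h4 : s ∉ Metric.ball t ε := fun h => h3 h ⟨hs, hst⟩
  rw [Metric.mem_ball, Real.dist_eq, not_lt] at h4
  rcases le_abs.1 h4 with h5 | h5
  · exact mul_pos (by linarith) (by linarith)
  · exact mul_pos_of_neg_of_neg (by linarith) (by linarith)

theorem SAP_K (K : Type) [Field K] [NumberField K] (S : Set (K →+* ℝ)) :
    ∃ α : K, ∀ φ : K →+* ℝ, (φ ∈ S → φ α < 0) ∧ (φ ∉ S → 0 < φ α) := by
  classical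
  have hfin := SAP_fin K
  have := Fintype.ofFinite (K →+* ℝ)
  obtain ⟨θ, hθ⟩ := SAP_inj K
  have hT : (Set.range fun φ : K →+* ℝ => φ θ).Finite := Set.finite_range _
  choose a b ha hb hab using fun φ : K →+* ℝ => SAP_rat _ hT (φ θ)
  let U : Finset (K →+* ℝ) := Finset.univ.filter fun φ => φ ∈ S
  have hU : ∀ φ, φ ∈ U ↔ φ ∈ S := fun φ => by simp [U]
  refine ⟨∏ φ ∈ U, (θ - (a φ : K)) * (θ - (b φ : K)), fun φ => ?_⟩
  have h1 : φ (∏ ψ ∈ U, (θ - (a ψ : K)) * (θ - (b ψ : K))) =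
      ∏ ψ ∈ U, (φ θ - (a ψ : ℝ)) * (φ θ - (b ψ : ℝ)) := by
    rw [map_prod]
    refine Finset.prod_congr rfl fun ψ _ => ?_
    rw [map_mul, map_sub, map_sub, map_ratCast, map_ratCast]
  have h2 : ∀ ψ, ψ ≠ φ → 0 < (φ θ - (a ψ : ℝ)) * (φ θ - (b ψ : ℝ)) := by
    intro ψ hψ
    exact hab ψ (φ θ) ⟨φ, rfl⟩ (fun h => hψ (hθ φ ψ h).symm)
  rw [h1]
  constructor
  · intro hφ
    rw [← Finset.mul_prod_erase U _ ((hU φ).2 hφ)]
    refine mul_neg_of_neg_of_pos ?_ ?_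
    · have h3 := ha φ
      have h4 := hb φ
      exact mul_neg_of_pos_of_neg (by linarith) (by linarith)
    · exact Finset.prod_pos fun ψ hψ => h2 ψ (Finset.ne_of_mem_erase hψ)
  · intro hφ
    exact Finset.prod_pos fun ψ hψ => h2 ψ (fun h => hφ (h ▸ (hU ψ).1 hψ))

theorem SAP_O (K : Type) [Field K] [NumberField K] (S : Set (K →+* ℝ)) :
    ∃ α : 𝓞 K, ∀ φ : K →+* ℝ, (φ ∈ S → φ ((α : 𝓞 K) : K) < 0) ∧ (φ ∉ S → 0 < φ ((α : 𝓞 K) : K)) := by
  obtain ⟨α, hα⟩ := SAP_K K S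
  obtain ⟨d, hd, hi⟩ := IsAlgebraic.exists_integral_multiple (R := ℤ) (z := α)
    ((IsFractionRing.isAlgebraic_iff ℤ ℚ K).2 (Algebra.IsAlgebraic.isAlgebraic (R := ℚ) α))
  have h1 : IsIntegral ℤ ((d : K) * ((d : K) * α)) := by
    rw [zsmul_eq_mul] at hi
    exact (isIntegral_algebraMap (R := ℤ) (x := d)).mul hi
  obtain ⟨y, hy⟩ : ∃ y : 𝓞 K, ((y : 𝓞 K) : K) = (d : K) * ((d : K) * α) := ⟨⟨_, h1⟩, rfl⟩
  refine ⟨y, fun φ => ?_⟩
  have h2 : φ ((y : 𝓞 K) : K) = ((d : ℝ) * d) * φ α := by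
    rw [hy, map_mul, map_mul, map_intCast, mul_assoc]
  have h3 : (0 : ℝ) < (d : ℝ) * d := by
    have h4 : (d : ℝ) ≠ 0 := by exact_mod_cast hd
    exact mul_self_pos.2 h4
  rw [h2]
  exact ⟨fun h => mul_neg_of_pos_of_neg h3 ((hα φ).1 h), fun h => mul_pos h3 ((hα φ).2 h)⟩

theorem SAP : SAP_stmt := by
  classical
  intro K _ _ N S hN
  by_cases hS : S.Nonempty
  · obtain ⟨α, hα⟩ := SAP_O K S
    have hfin := SAP_fin K
    have hNR : (0 : ℝ) < N := by exact_mod_cast Nat.pos_of_ne_zero hN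
    -- a large k
    have h1 : ∃ k : ℕ, ∀ φ ∈ S, 1 + (k : ℝ) * (N * φ ((α : 𝓞 K) : K)) < 0 := by
      have h2 : ∀ φ : K →+* ℝ, ∃ k : ℕ, φ ∈ S → ∀ l : ℕ, k ≤ l → 1 + (l : ℝ) * (N * φ ((α : 𝓞 K) : K)) < 0 := by
        intro φ
        by_cases hφ : φ ∈ S
        · have h3 := (hα φ).1 hφ
          have h4 : 0 < -(N * φ ((α : 𝓞 K) : K)) := by
            have := mul_neg_of_pos_of_neg hNR h3
            linarith
          obtain ⟨k, hk⟩ := exists_nat_gt (1 / (-(N * φ ((α : 𝓞 K) : K))))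
          refine ⟨k, fun _ l hl => ?_⟩
          have h5 : (k : ℝ) ≤ l := by exact_mod_cast hl
          have h6 : 1 / (-(N * φ ((α : 𝓞 K) : K))) < (l : ℝ) := lt_of_lt_of_le hk h5
          rw [div_lt_iff₀ h4] at h6
          linarith
        · exact ⟨0, fun h => absurd h hφ⟩
      choose k hk using h2
      have := Fintype.ofFinite (K →+* ℝ)
      refine ⟨∑ φ, k φ, fun φ hφ => hk φ hφ _ ?_⟩
      exact Finset.single_le_sum (f := k) (fun _ _ => Nat.zero_le _) (Finset.mem_univ φ)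
    obtain ⟨k, hk⟩ := h1
    have h2 : ∀ φ : K →+* ℝ, φ (((1 + (k : 𝓞 K) * ((N : 𝓞 K) * α) : 𝓞 K) : 𝓞 K) : K) =
        1 + (k : ℝ) * (N * φ ((α : 𝓞 K) : K)) := by
      intro φ
      have h3 : (((1 + (k : 𝓞 K) * ((N : 𝓞 K) * α) : 𝓞 K) : 𝓞 K) : K) = 1 + (k : K) * ((N : K) * ((α : 𝓞 K) : K)) := by
        push_cast
        rfl
      rw [h3, map_add, map_one, map_mul, map_mul, map_natCast, map_natCast]
    refine ⟨1 + (k : 𝓞 K) * ((N : 𝓞 K) * α), ?_, ?_, fun φ => ⟨fun hφ => ?_, fun hφ => ?_⟩⟩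
    · intro h0
      obtain ⟨φ, hφ⟩ := hS
      have h3 := hk φ hφ
      rw [← h2 φ, h0] at h3
      have h4 : φ (((0 : 𝓞 K) : 𝓞 K) : K) = 0 := by
        have h5 : (((0 : 𝓞 K) : 𝓞 K) : K) = 0 := rfl
        rw [h5, map_zero]
      rw [h4] at h3
      exact lt_irrefl _ h3
    · rw [Ideal.mem_span_singleton]
      refine ⟨(k : 𝓞 K) * α, ?_⟩
      ring
    · rw [h2]
      exact hk φ hφ
    · rw [h2]
      have h3 := (hα φ).2 hφ
      have h4 : (0 : ℝ) ≤ (k : ℝ) * (N * φ ((α : 𝓞 K) : K)) := by positivity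
      linarith
  · refine ⟨1, one_ne_zero, by simp, fun φ => ⟨fun hφ => absurd ⟨φ, hφ⟩ hS, fun _ => ?_⟩⟩
    have h5 : (((1 : 𝓞 K) : 𝓞 K) : K) = 1 := rfl
    rw [h5, map_one]
    exact zero_lt_one

end Pool.Agent.UN
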