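import Pool.Agent.helper1.UN.SpecU

/-!
# unh:VHI: invariance under the unit lattice
-/

set_option autoImplicit false

open NumberField Complex MeasureTheory NumberField.Units NumberField.Units.dirichletUnitTheorem

open scoped Classical

namespace Pool.Agent.UN

theorem VHI_cpow (t : ℝ) (z : ℂ) : ((Real.exp t : ℝ) : ℂ) ^ z = cexp ((t : ℂ) * z) := by
  rw [Complex.cpow_def_of_ne_zero (Complex.ofReal_ne_zero.2 (Real.exp_ne_zero t)),
    ← Complex.ofReal_log (Real.exp_pos t).le, Real.log_exp]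

theorem VHI (hVTQ : VTQ_stmt) (hVLV : VLV_stmt) : VHI_stmt := by
  intro K _ _ τ ρ l v hv
  obtain ⟨u, hu⟩ : ∃ u : (𝓞 K)ˣ, lu u = v := by
    obtain ⟨u, -, hu⟩ := hv
    exact ⟨Additive.toMul u, hu⟩
  subst hu
  obtain ⟨-, hadd, -, hlu, -, -, -⟩ := hVLV K
  constructor
  · intro b χ a
    unfold Th0
    let e : b ≃ b :=
      { toFun := fun x => ⟨(u : 𝓞 K) * (x : 𝓞 K), b.mul_mem_left _ x.2⟩
        invFun := fun x => ⟨((u⁻¹ : (𝓞 K)ˣ) : 𝓞 K) * (x : 𝓞 K), b.mul_mem_left _ x.2⟩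
        left_inv := fun x => Subtype.ext (Units.inv_mul_cancel_left u (x : 𝓞 K))
        right_inv := fun x => Subtype.ext (Units.mul_inv_cancel_left u (x : 𝓞 K)) }
    rw [← e.tsum_eq (fun x : b => tq χ τ a (Yl ρ l) (x : 𝓞 K))]
    refine tsum_congr fun x => ?_
    exact (hVTQ K χ τ a ρ l u (x : 𝓞 K)).symm
  · intro m hρ hm hAr
    have h1 : ∀ w : InfinitePlace K, ((Yl ρ (l + lu u) w : ℝ) : ℂ) ^ (ex τ (fun _ => 0) w) =
        ((Yl ρ l w : ℝ) : ℂ) ^ (ex τ (fun _ => 0) w) *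
          cexp ((((w.mult : ℝ) * τ w * Real.log (w ((u : 𝓞 K) : K)) : ℝ) : ℂ) * I) := by
      intro w
      have h2 : Yl ρ (l + lu u) w = Yl ρ l w * Real.exp (2 * Real.log (w ((u : 𝓞 K) : K))) := by
        unfold Yl
        rw [hadd, hlu, mul_add, Real.exp_add, mul_assoc]
      have h3 : 0 ≤ Yl ρ l w := by
        unfold Yl
        positivity
      rw [h2, Complex.ofReal_mul, Complex.mul_cpow_ofReal_nonneg h3 (Real.exp_pos _).le, VHI_cpow]
      congr 2
      unfold ex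
      push_cast
      ring
    rw [Finset.prod_congr rfl fun w _ => h1 w, Finset.prod_mul_distrib]
    have h2 : ∏ w : InfinitePlace K,
        cexp ((((w.mult : ℝ) * τ w * Real.log (w ((u : 𝓞 K) : K)) : ℝ) : ℂ) * I) = 1 := by
      have h3 := hAr u
      unfold Ar at h3
      have h4 : ∀ w : InfinitePlace K, ph ((w.mult : ℝ) * τ w) (Real.log (w ((u : 𝓞 K) : K))) *
          (w.embedding ((u : 𝓞 K) : K) / (‖w.embedding ((u : 𝓞 K) : K)‖ : ℂ)) ^ (m w) =
          (cexp ((((w.mult : ℝ) * τ w * Real.log (w ((u : 𝓞 K) : K)) : ℝ) : ℂ) * I))⁻¹ := by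
        intro w
        rw [hm w, zpow_zero, mul_one, ← Complex.exp_neg]
        unfold ph
        rw [neg_mul]
      rw [Finset.prod_congr rfl fun w _ => h4 w, Finset.prod_inv_distrib, inv_eq_one] at h3
      exact h3
    rw [h2, mul_one]

end Pool.Agent.UN
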